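import Mathlib

/-!
# Cubes in sets of integers with few distinct gaps
-/

set_option autoImplicit false

open Finset

namespace Pool.Agent.h232gaps

/-- each of the first `t` terms is larger than the sum of the preceding ones -/
def Sup (e : ℕ → ℤ) (t : ℕ) : Prop := ∀ i < t, ∑ j ∈ range i, e j < e i

/-- all cubes with base points `a s`, `s ∈ S`, and sides `e 0, …, e (t - 1)` lie in `{a 0, …, a M}`, and are short -/
def St (a : ℕ → ℤ) (M t : ℕ) (e : ℕ → ℤ) (L : ℕ) (S : Finset ℕ) : Prop :=
  Sup e t ∧ ∀ s ∈ S, s ≤ M ∧ (∀ I ⊆ range t, ∃ j ≤ M, a j = a s + ∑ i ∈ I, e i) ∧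
    a s + ∑ i ∈ range t, e i ≤ a (s + L)

theorem sum_update_range (e : ℕ → ℤ) (t : ℕ) (v : ℤ) (I : Finset ℕ) (hI : I ⊆ range t) :
    ∑ i ∈ I, Function.update e t v i = ∑ i ∈ I, e i := by
  refine Finset.sum_congr rfl (fun i hi => ?_)
  have := Finset.mem_range.1 (hI hi)
  rw [Function.update_of_ne (by omega)]

theorem St.extend {a : ℕ → ℤ} (ha : StrictMono a) {M t L B : ℕ} {e : ℕ → ℤ} {S S' : Finset ℕ}
    (h : St a M t e L S) (v : ℤ) (hne : S'.Nonempty) (hS : S' ⊆ S)
    (hv : ∀ s ∈ S', ∃ s' ∈ S, s + L < s' ∧ s' ≤ s + B ∧ a s' = a s + v) :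
    St a M (t + 1) (Function.update e t v) (L + B) S' := by
  obtain ⟨hsup, hs⟩ := h
  refine ⟨?_, ?_⟩
  · intro i hi
    rw [sum_update_range e t v (range i) (range_subset_range.2 (by omega))]
    rcases Nat.lt_or_ge i t with h1 | h1
    · rw [Function.update_of_ne (by omega)]
      exact hsup i h1
    · have h2 : i = t := by omega
      subst h2
      rw [Function.update_self]
      obtain ⟨s, hs1⟩ := hne
      obtain ⟨s', hs', h3, -, h5⟩ := hv s hs1
      have h6 := (hs s (hS hs1)).2.2
      have h7 : a (s + L) < a s' := ha h3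
      linarith
  · intro s hs1
    obtain ⟨s', hs', h3, h4, h5⟩ := hv s hs1
    refine ⟨(hs s (hS hs1)).1, ?_, ?_⟩
    · intro I hI
      by_cases ht : t ∈ I
      · have hI' : I.erase t ⊆ range t := by
          intro i hi
          rw [mem_erase] at hi
          have := mem_range.1 (hI hi.2)
          rw [mem_range]
          omega
        obtain ⟨j, hj, hj2⟩ := (hs s' hs').2.1 (I.erase t) hI'
        refine ⟨j, hj, ?_⟩
        rw [hj2, h5, ← Finset.add_sum_erase I _ ht, Function.update_self,
          sum_update_range e t v _ hI']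
        ring
      · have hI' : I ⊆ range t := by
          intro i hi
          have h1 := mem_range.1 (hI hi)
          rw [mem_range]
          have : i ≠ t := fun h => ht (h ▸ hi)
          omega
        obtain ⟨j, hj, hj2⟩ := (hs s (hS hs1)).2.1 I hI'
        refine ⟨j, hj, ?_⟩
        rw [hj2, sum_update_range e t v _ hI']
    · rw [Finset.sum_range_succ, Function.update_self, sum_update_range e t v _ (Finset.Subset.refl _)]
      have h6 := (hs s' hs').2.2
      have h7 : a (s' + L) ≤ a (s + (L + B)) := ha.monotone (by omega)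
      linarith

/-- the pigeonhole step -/
theorem pigeon {M L Q B : ℕ} (S : Finset ℕ) (hSM : ∀ s ∈ S, s ≤ M) (hQ : M + 1 ≤ S.card * Q)
    (hB : B = 4 * (L + 1) * Q) (hBM : B ≤ M + 1) (a : ℕ → ℤ) (D : Finset ℤ)
    (hD : ∀ i j, i ≤ j → j ≤ M → j ≤ i + B → a j - a i ∈ D) :
    ∃ (v : ℤ) (S' : Finset ℕ), S' ⊆ S ∧ S.card ≤ S'.card * (2 * B * D.card) ∧
      ∀ s ∈ S', ∃ s' ∈ S, s + L < s' ∧ s' ≤ s + B ∧ a s' = a s + v := by
  classical
  have hQ0 : 0 < Q := by
    rcases Nat.eq_zero_or_pos Q with h | h
    · subst h; omega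
    · exact h
  have hB0 : 0 < B := by rw [hB]; positivity
  set nb : ℕ := M / B + 1 with hnb
  set blk : ℕ → Finset ℕ := fun b => S.filter (fun s => s / B = b) with hblk
  set good : Finset ℕ := (range nb).filter (fun b => L + 2 ≤ (blk b).card) with hgood
  -- counting
  have hcardS : S.card = ∑ b ∈ range nb, (blk b).card := by
    refine Finset.card_eq_sum_card_fiberwise (f := fun s => s / B) (fun s hs => ?_)
    rw [Finset.mem_coe, mem_range, hnb]
    have := Nat.div_le_div_right (c := B) (hSM s hs)
    show s / B < M / B + 1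
    omega
  have hblkB : ∀ b, (blk b).card ≤ B := by
    intro b
    have h1 : blk b ⊆ Finset.Ico (b * B) (b * B + B) := by
      intro s hs
      rw [hblk, mem_filter] at hs
      obtain ⟨_, h2⟩ := hs
      rw [Finset.mem_Ico]
      have h3 := Nat.div_add_mod s B
      have h4 := Nat.mod_lt s hB0
      rw [h2, Nat.mul_comm B b] at h3
      constructor
      · omega
      · omega
    have h2 := Finset.card_le_card h1
    rw [Nat.card_Ico] at h2
    omega
  have hsplit : S.card ≤ good.card * B + nb * (L + 1) := by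
    rw [hcardS, ← Finset.sum_filter_add_sum_filter_not (range nb) (fun b => L + 2 ≤ (blk b).card)]
    refine Nat.add_le_add ?_ ?_
    · calc ∑ b ∈ (range nb).filter (fun b => L + 2 ≤ (blk b).card), (blk b).card
          ≤ ∑ _b ∈ (range nb).filter (fun b => L + 2 ≤ (blk b).card), B :=
            Finset.sum_le_sum (fun b _ => hblkB b)
        _ = good.card * B := by rw [Finset.sum_const, smul_eq_mul]
    · calc ∑ b ∈ (range nb).filter (fun b => ¬ L + 2 ≤ (blk b).card), (blk b).card
          ≤ ∑ _b ∈ (range nb).filter (fun b => ¬ L + 2 ≤ (blk b).card), (L + 1) :=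
            Finset.sum_le_sum (fun b hb => by
              have := (mem_filter.1 hb).2
              omega)
        _ = ((range nb).filter (fun b => ¬ L + 2 ≤ (blk b).card)).card * (L + 1) := by
            rw [Finset.sum_const, smul_eq_mul]
        _ ≤ nb * (L + 1) := by
            refine Nat.mul_le_mul_right _ ?_
            have := Finset.card_filter_le (range nb) (fun b => ¬ L + 2 ≤ (blk b).card)
            rwa [card_range] at this
  have hnbB : nb * B ≤ 2 * (M + 1) := by
    have h1 : M / B * B ≤ M := Nat.div_mul_le_self M B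
    calc nb * B = M / B * B + B := by rw [hnb]; ring
      _ ≤ M + (M + 1) := by omega
      _ ≤ 2 * (M + 1) := by omega
  have hhalf : 2 * (nb * (L + 1)) ≤ S.card := by
    have h1 : (2 * (nb * (L + 1))) * (2 * Q) ≤ S.card * (2 * Q) := by
      calc (2 * (nb * (L + 1))) * (2 * Q) = nb * B := by rw [hB]; ring
        _ ≤ 2 * (M + 1) := hnbB
        _ ≤ 2 * (S.card * Q) := by omega
        _ = S.card * (2 * Q) := by ring
    exact Nat.le_of_mul_le_mul_right h1 (by omega)
  have hgoodc : S.card ≤ 2 * B * good.card := by nlinarith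
  have hScard : 0 < S.card := by
    rcases Nat.eq_zero_or_pos S.card with h | h
    · rw [h] at hQ; omega
    · exact h
  -- the pairs
  have hpair : ∀ b : ℕ, ∃ p : ℕ × ℕ, b ∈ good → p.1 ∈ S ∧ p.2 ∈ S ∧ p.1 / B = b ∧
      p.1 + L < p.2 ∧ p.2 ≤ p.1 + B ∧ p.2 ≤ M := by
    intro b
    by_cases hb : b ∈ good
    · have hb2 : L + 2 ≤ (blk b).card := (mem_filter.1 hb).2
      have hne : (blk b).Nonempty := Finset.card_pos.1 (by omega)
      refine ⟨((blk b).min' hne, (blk b).max' hne), fun _ => ?_⟩
      have h1 := (blk b).min'_mem hne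
      have h2 := (blk b).max'_mem hne
      have h1' := Finset.mem_filter.1 h1
      have h2' := Finset.mem_filter.1 h2
      have h3 : blk b ⊆ Finset.Icc ((blk b).min' hne) ((blk b).max' hne) := by
        intro s hs
        rw [Finset.mem_Icc]
        exact ⟨(blk b).min'_le s hs, (blk b).le_max' s hs⟩
      have h4 := Finset.card_le_card h3
      rw [Nat.card_Icc] at h4
      have h5 := (blk b).min'_le _ h2
      have e1 := Nat.div_add_mod ((blk b).min' hne) B
      have e2 := Nat.div_add_mod ((blk b).max' hne) B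
      have e3 := Nat.mod_lt ((blk b).max' hne) hB0
      rw [h1'.2] at e1
      rw [h2'.2] at e2
      refine ⟨h1'.1, h2'.1, h1'.2, ?_, ?_, hSM _ h2'.1⟩
      · show (blk b).min' hne + L < (blk b).max' hne
        omega
      · show (blk b).max' hne ≤ (blk b).min' hne + B
        omega
    · exact ⟨(0, 0), fun h => absurd h hb⟩
  choose p hp using hpair
  have hgne : 0 < good.card := by
    rcases Nat.eq_zero_or_pos good.card with h | h
    · rw [h] at hgoodc; omega
    · exact h
  obtain ⟨b0, hb0⟩ := Finset.card_pos.1 hgne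
  have hmaps : ∀ b ∈ good, a (p b).2 - a (p b).1 ∈ D := by
    intro b hb
    obtain ⟨-, -, -, h4, h5, h6⟩ := hp b hb
    exact hD _ _ (by omega) h6 h5
  have hDne : D.Nonempty := ⟨_, hmaps b0 hb0⟩
  obtain ⟨v, hvD, hvmax⟩ := Finset.exists_max_image D
    (fun v => (good.filter (fun b => a (p b).2 - a (p b).1 = v)).card) hDne
  have hfib : good.card ≤ D.card * (good.filter (fun b => a (p b).2 - a (p b).1 = v)).card := by
    rw [Finset.card_eq_sum_card_fiberwise (f := fun b => a (p b).2 - a (p b).1) (t := D)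
      (fun b hb => hmaps b hb)]
    calc ∑ w ∈ D, (good.filter (fun b => a (p b).2 - a (p b).1 = w)).card
        ≤ ∑ _w ∈ D, (good.filter (fun b => a (p b).2 - a (p b).1 = v)).card :=
          Finset.sum_le_sum (fun w hw => hvmax w hw)
      _ = _ := by rw [Finset.sum_const, smul_eq_mul]
  set F := good.filter (fun b => a (p b).2 - a (p b).1 = v) with hF
  refine ⟨v, F.image (fun b => (p b).1), ?_, ?_, ?_⟩
  · intro s hs
    rw [mem_image] at hs
    obtain ⟨b, hb, rfl⟩ := hs
    exact (hp b (mem_filter.1 hb).1).1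
  · have hinj : (F.image (fun b => (p b).1)).card = F.card := by
      refine Finset.card_image_of_injOn ?_
      intro b hb b' hb' hbb
      have h1 := (hp b (mem_filter.1 hb).1).2.2.1
      have h2 := (hp b' (mem_filter.1 hb').1).2.2.1
      simp only at hbb
      rw [← h1, ← h2, hbb]
    rw [hinj]
    calc S.card ≤ 2 * B * good.card := hgoodc
      _ ≤ 2 * B * (D.card * F.card) := Nat.mul_le_mul_left _ hfib
      _ = F.card * (2 * B * D.card) := by ring
  · intro s hs
    rw [mem_image] at hs
    obtain ⟨b, hb, rfl⟩ := hs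
    obtain ⟨hb1, hb2⟩ := mem_filter.1 hb
    obtain ⟨-, h2, -, h4, h5, h6⟩ := hp b hb1
    exact ⟨(p b).2, h2, h4, h5, by linarith⟩

end Pool.Agent.h232gaps
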