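import Pool.Agent.h232_gaps.Steps
import Pool.Agent.R447.CubeRep

/-!
# Cubes in finite sets of natural numbers with few distinct gaps, and representations
-/

set_option autoImplicit false

open Finset

namespace Pool.Agent.h232gaps

theorem Sup.nonneg {e : ℕ → ℤ} {t : ℕ} (h : Sup e t) : ∀ i ≤ t, 0 ≤ ∑ j ∈ range i, e j := by
  intro i
  induction i with
  | zero => intro _; simp
  | succ i ih =>
    intro hi
    rw [Finset.sum_range_succ]
    have h1 := ih (by omega)
    have h2 := h i (by omega)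
    linarith

theorem Sup.pos {e : ℕ → ℤ} {t : ℕ} (h : Sup e t) : ∀ i < t, 0 < e i := by
  intro i hi
  have h1 := h.nonneg i hi.le
  have h2 := h i hi
  linarith

theorem Sup.inj {e : ℕ → ℤ} : ∀ {t : ℕ}, Sup e t → ∀ I J : Finset ℕ, I ⊆ range t → J ⊆ range t →
    ∑ i ∈ I, e i = ∑ i ∈ J, e i → I = J := by
  intro t
  induction t with
  | zero =>
    intro _ I J hI hJ _
    rw [range_zero, Finset.subset_empty] at hI hJ
    rw [hI, hJ]
  | succ t ih =>
    intro h I J hI hJ hIJ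
    have hs : Sup e t := fun i hi => h i (by omega)
    have hsub : ∀ I : Finset ℕ, I ⊆ range (t + 1) → t ∉ I → I ⊆ range t := by
      intro I hI ht i hi
      have h1 := mem_range.1 (hI hi)
      rw [mem_range]
      have : i ≠ t := fun h => ht (h ▸ hi)
      omega
    have hers : ∀ I : Finset ℕ, I ⊆ range (t + 1) → I.erase t ⊆ range t := by
      intro I hI
      exact hsub _ ((Finset.erase_subset _ _).trans hI) (Finset.notMem_erase _ _)
    have hlt : ∀ I : Finset ℕ, I ⊆ range t → ∑ i ∈ I, e i < e t := by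
      intro I hI
      refine lt_of_le_of_lt ?_ (h t (by omega))
      exact Finset.sum_le_sum_of_subset_of_nonneg hI (fun i hi _ => (hs.pos i (mem_range.1 hi)).le)
    have hge : ∀ I : Finset ℕ, I ⊆ range (t + 1) → t ∈ I → e t ≤ ∑ i ∈ I, e i := by
      intro I hI ht
      refine Finset.single_le_sum (f := e) (fun i hi => (h.pos i (mem_range.1 (hI hi))).le) ht
    by_cases h1 : t ∈ I <;> by_cases h2 : t ∈ J
    · rw [← Finset.add_sum_erase I _ h1, ← Finset.add_sum_erase J _ h2] at hIJ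
      have h3 := ih hs (I.erase t) (J.erase t) (hers I hI) (hers J hJ) (by linarith)
      rw [← Finset.insert_erase h1, ← Finset.insert_erase h2, h3]
    · have h3 := hge I hI h1
      have h4 := hlt J (hsub J hJ h2)
      linarith
    · have h3 := hge J hJ h2
      have h4 := hlt I (hsub I hI h1)
      linarith
    · exact ih hs I J (hsub I hI h1) (hsub J hJ h2) hIJ

/-- cubes of dimension `t + 3` -/
theorem cube_seq (t : ℕ) : ∀ (g : ℕ) (a : ℕ → ℤ) (M : ℕ) (G : Finset ℤ), 1 ≤ g → StrictMono a →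
    GapsIn a M G → G.card ≤ g → 2 ^ (9 * (6 * g) ^ (t + 1)) ≤ M + 1 →
    ∃ (e : ℕ → ℤ) (s : ℕ), Sup e (t + 3) ∧ s ≤ M ∧
      ∀ I ⊆ range (t + 3), ∃ j ≤ M, a j = a s + ∑ i ∈ I, e i := by
  intro g a M G hg ha hG hGg hM
  have hC := many t
  set c := 25 * 6 ^ t * g ^ (t + 1) with hc
  have hgp : 1 ≤ g ^ (t + 1) := Nat.one_le_pow _ _ hg
  have h6p : 1 ≤ 6 ^ t := Nat.one_le_pow _ _ (by norm_num)
  have hle : 2 * c + 1 ≤ 9 * (6 * g) ^ (t + 1) := by
    have h1 : 1 ≤ 6 ^ t * g ^ (t + 1) := Nat.mul_le_mul h6p hgp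
    have h2 : c = 25 * (6 ^ t * g ^ (t + 1)) := by rw [hc]; ring
    have h3 : 9 * (6 * g) ^ (t + 1) = 54 * (6 ^ t * g ^ (t + 1)) := by
      rw [mul_pow, pow_succ 6 t]; ring
    omega
  have hM' : 2 ^ (2 * c + 1) ≤ M + 1 := (Nat.pow_le_pow_right (by norm_num) hle).trans hM
  obtain ⟨e, L, S, hSt, hL, hS⟩ := hC g a M G hg ha hG hGg
    ((Nat.pow_le_pow_right (by norm_num) (by omega)).trans hM')
  rw [← hc] at hL hS
  have hW1 : 1 ≤ 2 ^ c := Nat.one_le_two_pow
  have hWW : 2 ^ (2 * c + 1) = 2 * (2 ^ c * 2 ^ c) := by ring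
  have hcard : 2 ^ c + 1 ≤ S.card := by
    by_contra hcon
    push Not at hcon
    have h1 : S.card ≤ 2 ^ c := by omega
    have h2 : S.card * 2 ^ c ≤ 2 ^ c * 2 ^ c := Nat.mul_le_mul_right _ h1
    have h3 : 1 ≤ 2 ^ c * 2 ^ c := Nat.mul_le_mul hW1 hW1
    rw [hWW] at hM'
    omega
  have hne : S.Nonempty := Finset.card_pos.1 (by omega)
  have h3 : S ⊆ Finset.Icc (S.min' hne) (S.max' hne) := by
    intro s hs
    rw [Finset.mem_Icc]
    exact ⟨S.min'_le s hs, S.le_max' s hs⟩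
  have h4 := Finset.card_le_card h3
  rw [Nat.card_Icc] at h4
  have h5 := S.min'_mem hne
  have h6 := S.max'_mem hne
  have h7 := S.min'_le _ h6
  have hlt : S.min' hne + L < S.max' hne := by omega
  have hext := hSt.extend ha (S' := {S.min' hne}) (B := S.max' hne - S.min' hne)
    (a (S.max' hne) - a (S.min' hne)) (Finset.singleton_nonempty _)
    (Finset.singleton_subset_iff.2 h5) (fun s hs => by
      rw [Finset.mem_singleton] at hs
      subst hs
      exact ⟨S.max' hne, h6, hlt, by omega, by ring⟩)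
  obtain ⟨hsup, hall⟩ := hext
  obtain ⟨h8, h9, -⟩ := hall _ (Finset.mem_singleton_self _)
  exact ⟨_, _, hsup, h8, h9⟩

/-- the set of the gaps (differences of consecutive elements) of a set -/
def gaps (B : Set ℕ) : Set ℕ := {d | 0 < d ∧ ∃ a ∈ B, a + d ∈ B ∧ ∀ c ∈ B, ¬ (a < c ∧ c < a + d)}

theorem gaps_finite (B : Finset ℕ) : (gaps (B : Set ℕ)).Finite := by
  refine (Set.finite_Iic (B.sup id)).subset ?_
  rintro d ⟨_, a, _, h2, _⟩
  have h3 : a + d ≤ B.sup id := Finset.le_sup (f := id) h2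
  rw [Set.mem_Iic]
  omega

theorem enumerate {B : Finset ℕ} {M g : ℕ} (hB : B.card = M + 1) (hg : (gaps (B : Set ℕ)).ncard ≤ g) :
    ∃ (a : ℕ → ℤ) (G : Finset ℤ), StrictMono a ∧ (∀ i ≤ M, ∃ b ∈ B, a i = (b : ℤ)) ∧ GapsIn a M G ∧
      G.card ≤ g := by
  classical
  set f := B.orderEmbOfFin hB with hf
  set a : ℕ → ℤ := fun i => if h : i < M + 1 then ((f ⟨i, h⟩ : ℕ) : ℤ) else
    ((f ⟨M, Nat.lt_succ_self M⟩ : ℕ) : ℤ) + ((i : ℤ) - M) with ha
  have ha1 : ∀ i (h : i < M + 1), a i = ((f ⟨i, h⟩ : ℕ) : ℤ) := fun i h => dif_pos h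
  have ha2 : ∀ i, M + 1 ≤ i → a i = ((f ⟨M, Nat.lt_succ_self M⟩ : ℕ) : ℤ) + ((i : ℤ) - M) :=
    fun i h => dif_neg (by omega)
  have hmem : ∀ i, f i ∈ B := fun i => Finset.orderEmbOfFin_mem B hB i
  refine ⟨a, (gaps_finite B).toFinset.image (fun d : ℕ => (d : ℤ)), ?_, ?_, ?_, ?_⟩
  · refine strictMono_nat_of_lt_succ (fun i => ?_)
    rcases Nat.lt_trichotomy i M with h | h | h
    · rw [ha1 i (by omega), ha1 (i + 1) (by omega)]
      have : f ⟨i, by omega⟩ < f ⟨i + 1, by omega⟩ := by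
        rw [f.lt_iff_lt]
        show i < i + 1
        omega
      exact_mod_cast this
    · subst h
      rw [ha1 i (by omega), ha2 (i + 1) (by omega)]
      push_cast
      linarith
    · rw [ha2 i (by omega), ha2 (i + 1) (by omega)]
      push_cast
      linarith
  · intro i hi
    exact ⟨f ⟨i, by omega⟩, hmem _, ha1 i (by omega)⟩
  · intro i hi
    rw [ha1 i (by omega), ha1 (i + 1) (by omega), mem_image]
    have hlt : f ⟨i, by omega⟩ < f ⟨i + 1, by omega⟩ := by
      rw [f.lt_iff_lt]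
      show i < i + 1
      omega
    refine ⟨f ⟨i + 1, by omega⟩ - f ⟨i, by omega⟩, ?_, ?_⟩
    · rw [Set.Finite.mem_toFinset]
      refine ⟨by omega, f ⟨i, by omega⟩, hmem _, ?_, ?_⟩
      · rw [Nat.add_sub_cancel' hlt.le]
        exact hmem _
      · rintro c hc ⟨h1, h2⟩
        rw [Nat.add_sub_cancel' hlt.le] at h2
        have h3 : c ∈ Set.range f := by
          rw [hf, Finset.range_orderEmbOfFin]
          exact hc
        obtain ⟨j, rfl⟩ := h3
        rw [f.lt_iff_lt] at h1 h2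
        have h4 : i < j.val := h1
        have h5 : j.val < i + 1 := h2
        omega
    · rw [Nat.cast_sub hlt.le]
  · refine Finset.card_image_le.trans ?_
    rwa [← Set.ncard_eq_toFinset_card _ (gaps_finite B)]

/-- **Cubes in sets with few distinct gaps.** -/
theorem cubes (k : ℕ) (hk : 3 ≤ k) (g : ℕ) (B : Finset ℕ) (hg : 1 ≤ g)
    (hgaps : (gaps (B : Set ℕ)).ncard ≤ g) (hB : 2 ^ (9 * (6 * g) ^ (k - 2)) ≤ B.card) :
    ∃ (x : ℕ) (e : Fin k → ℕ), (∀ I J : Finset (Fin k), ∑ i ∈ I, e i = ∑ i ∈ J, e i → I = J) ∧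
      ∀ I : Finset (Fin k), x + ∑ i ∈ I, e i ∈ B := by
  obtain ⟨t, rfl⟩ : ∃ t, k = t + 3 := ⟨k - 3, by omega⟩
  have hC := cube_seq t
  have hB1 : 1 ≤ B.card := le_trans Nat.one_le_two_pow hB
  obtain ⟨a, G, ha, haB, hG, hGg⟩ := enumerate (B := B) (M := B.card - 1) (by omega) hgaps
  obtain ⟨e, s, hsup, hs, hcube⟩ := hC g a (B.card - 1) G hg ha hG hGg (by
    rw [show t + 3 - 2 = t + 1 by omega] at hB
    omega)
  obtain ⟨x, hxB, hx⟩ := haB s hs
  have hcast : ∀ I : Finset (Fin (t + 3)),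
      ((∑ i ∈ I, (e i.val).toNat : ℕ) : ℤ) = ∑ i ∈ I.map Fin.valEmbedding, e i := by
    intro I
    rw [Finset.sum_map, Nat.cast_sum]
    refine Finset.sum_congr rfl (fun i _ => ?_)
    exact Int.toNat_of_nonneg (hsup.pos i.val i.isLt).le
  have hsub : ∀ I : Finset (Fin (t + 3)), I.map Fin.valEmbedding ⊆ range (t + 3) := by
    intro I i hi
    rw [Finset.mem_map] at hi
    obtain ⟨j, _, rfl⟩ := hi
    exact mem_range.2 j.isLt
  refine ⟨x, fun i => (e i.val).toNat, ?_, ?_⟩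
  · intro I J hIJ
    have h1 : ((∑ i ∈ I, (e i.val).toNat : ℕ) : ℤ) = ((∑ i ∈ J, (e i.val).toNat : ℕ) : ℤ) := by
      exact_mod_cast hIJ
    rw [hcast, hcast] at h1
    exact Finset.map_injective _ (hsup.inj _ _ (hsub I) (hsub J) h1)
  · intro I
    obtain ⟨j, hj, hj2⟩ := hcube (I.map Fin.valEmbedding) (hsub I)
    obtain ⟨b, hbB, hb⟩ := haB j hj
    rw [← hcast, hx, hb] at hj2
    have h3 : b = x + ∑ i ∈ I, (e i.val).toNat := by exact_mod_cast hj2
    rw [← h3]
    exact hbB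

open Pool.Agent.R447.Prod (mix reps_of_cube)

/-- cubes give representations -/
theorem reps {k : ℕ} (hk : 1 ≤ k) (A : Set ℕ) (B : Finset ℕ) (hBA : (B : Set ℕ) ⊆ A) (h x : ℕ) (e : Fin k → ℕ)
    (hinj : ∀ I J : Finset (Fin k), ∑ i ∈ I, e i = ∑ i ∈ J, e i → I = J)
    (hmem : ∀ I : Finset (Fin k), x + ∑ i ∈ I, e i ∈ B) :
    ∃ n, n ≤ h * B.sup id ∧ (h.choose (h / 2)) ^ k ≤ h.factorial * Pool.Agent.R447.Prod.rep A h n := by
  classical
  obtain ⟨n, hn0, hn⟩ := reps_of_cube (k := k) A h (B.sup id)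
    (fun i => (if i = ⟨0, hk⟩ then (x : ℤ) else 0) + e i) (fun i => if i = ⟨0, hk⟩ then (x : ℤ) else 0)
    (fun ε => x + ∑ i ∈ univ.filter (fun i => ε i = true), e i)
    (by
      intro ε ε' hε
      have h1 := hinj _ _ (Nat.add_left_cancel hε)
      funext i
      have h2 : (i ∈ univ.filter (fun i => ε i = true)) ↔ (i ∈ univ.filter (fun i => ε' i = true)) := by
        rw [h1]
      simp only [mem_filter, mem_univ, true_and] at h2
      rcases Bool.eq_false_or_eq_true (ε i) with h3 | h3 <;>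
      rcases Bool.eq_false_or_eq_true (ε' i) with h4 | h4 <;> simp_all)
    (fun ε => hBA (hmem _)) (fun ε => Finset.le_sup (f := id) (hmem _))
    (by
      intro ε
      have h1 : ∀ i, mix (fun i : Fin k => (if i = ⟨0, hk⟩ then (x : ℤ) else 0) + e i)
          (fun i => if i = ⟨0, hk⟩ then (x : ℤ) else 0) ε i =
          (if i = ⟨0, hk⟩ then (x : ℤ) else 0) + if ε i = true then (e i : ℤ) else 0 := by
        intro i
        simp only [mix]
        by_cases h : ε i = true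
        · simp [h]
        · simp [h]
      rw [Finset.sum_congr rfl (fun i _ => h1 i), Finset.sum_add_distrib, Finset.sum_ite_eq' univ,
        if_pos (mem_univ _), ← Finset.sum_filter]
      push_cast
      rfl)
  exact ⟨n, hn0, hn⟩

end Pool.Agent.h232gaps
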