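import Pool.Agent.h232_gaps.Cube

/-!
# Bases with few distinct gaps
-/

set_option autoImplicit false

open Finset Filter

namespace Pool.Agent.h232gaps

open Pool.Agent.R447.Prod (rep)

/-- `A` is an asymptotic basis of order `h` -/
def IsBasis (A : Set ℕ) (h : ℕ) : Prop :=
  ∃ n₀ : ℕ, ∀ n : ℕ, n₀ ≤ n →
    ∃ s : Multiset ℕ, Multiset.card s = h ∧ (∀ a ∈ s, a ∈ A) ∧ s.sum = n

/-- representations from finite subsets with few distinct gaps -/
theorem many_reps (A : Set ℕ) (h k g : ℕ) (B : Finset ℕ) (hBA : (B : Set ℕ) ⊆ A) (hk : 3 ≤ k) (hg : 1 ≤ g)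
    (hgaps : (gaps (B : Set ℕ)).ncard ≤ g) (hB : 2 ^ (9 * (6 * g) ^ (k - 2)) ≤ B.card) :
    ∃ n, n ≤ h * B.sup id ∧ (h.choose (h / 2)) ^ k ≤ h.factorial * rep A h n := by
  obtain ⟨x, e, hinj, hmem⟩ := cubes k hk g B hg hgaps hB
  exact reps (by omega) A B hBA h x e hinj hmem

/-- finite subsets of sets with bounded representation function -/
theorem bounded (k : ℕ) (hk : 3 ≤ k) : ∃ C : ℕ, 1 ≤ C ∧ ∀ (A : Set ℕ) (h K : ℕ),
    h.factorial * K < (h.choose (h / 2)) ^ k → (∀ n, rep A h n ≤ K) →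
    ∀ (g : ℕ) (B : Finset ℕ), (B : Set ℕ) ⊆ A → 1 ≤ g → (gaps (B : Set ℕ)).ncard ≤ g →
      B.card < 2 ^ (C * g ^ (k - 2)) := by
  refine ⟨9 * 6 ^ (k - 2), Nat.mul_pos (by norm_num) (by positivity), fun A h K hK hr g B hBA hg hgaps => ?_⟩
  by_contra hcon
  push Not at hcon
  obtain ⟨n, -, hn⟩ := many_reps A h k g B hBA hk hg hgaps (by
    rw [mul_pow, ← mul_assoc]
    exact hcon)
  have h1 : h.factorial * rep A h n ≤ h.factorial * K := Nat.mul_le_mul_left _ (hr n)
  omega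

theorem basis_growth {A : Set ℕ} {h : ℕ} (hA : IsBasis A h) : ∃ n₀ : ℕ, ∀ (N : ℕ) (F : Finset ℕ),
    (∀ a ∈ A, a ≤ N → a ∈ F) → N + 1 ≤ F.card ^ h + n₀ := by
  classical
  obtain ⟨n₀, hn₀⟩ := hA
  refine ⟨n₀, fun N F hF => ?_⟩
  have h1 : Finset.Ico n₀ (N + 1) ⊆ (Fintype.piFinset (fun _ : Fin h => F)).image (fun f => ∑ i, f i) := by
    intro n hn
    rw [Finset.mem_Ico] at hn
    obtain ⟨s, hs1, hs2, hs3⟩ := hn₀ n hn.1
    induction s using Quotient.inductionOn with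
    | h l =>
      simp only [Multiset.quot_mk_to_coe] at hs1 hs2 hs3
      rw [Multiset.coe_card] at hs1
      rw [Multiset.sum_coe] at hs3
      subst hs1
      rw [mem_image]
      refine ⟨fun i => l.get i, ?_, ?_⟩
      · rw [Fintype.mem_piFinset]
        intro i
        have h2 : l.get i ∈ l := List.get_mem l i
        have h3 : l.get i ≤ l.sum := List.single_le_sum (fun _ _ => Nat.zero_le _) _ h2
        exact hF _ (hs2 _ (Multiset.mem_coe.2 h2)) (by omega)
      · rw [← hs3, ← List.sum_ofFn]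
        congr 1
        exact List.ofFn_get l
  have h2 := Finset.card_le_card h1
  have h3 := Finset.card_image_le (s := Fintype.piFinset (fun _ : Fin h => F)) (f := fun f => ∑ i, f i)
  rw [Fintype.card_piFinset_const] at h3
  rw [Nat.card_Ico] at h2
  omega

theorem log_growth {A : Set ℕ} {h : ℕ} (hh : 1 ≤ h) (hA : IsBasis A h) : ∀ᶠ N : ℕ in atTop, ∀ F : Finset ℕ,
    (∀ a ∈ A, a ≤ N → a ∈ F) → Real.log N / (2 * h) ≤ Real.log F.card := by
  obtain ⟨n₀, hn₀⟩ := basis_growth hA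
  have hlog : Tendsto (fun N : ℕ => Real.log (N : ℝ)) atTop atTop :=
    Real.tendsto_log_atTop.comp tendsto_natCast_atTop_atTop
  filter_upwards [eventually_ge_atTop (2 * n₀ + 4), hlog.eventually_ge_atTop (2 * Real.log 2)] with N hN hN2 F hF
  have h1 := hn₀ N F hF
  have h2 : N ≤ 2 * F.card ^ h := by omega
  have hFc : 0 < F.card := by
    rcases Nat.eq_zero_or_pos F.card with h3 | h3
    · rw [h3, zero_pow (by omega)] at h2; omega
    · exact h3
  have hh0 : (0 : ℝ) < h := by exact_mod_cast hh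
  have hN0 : (0 : ℝ) < N := by
    have : 0 < N := by omega
    exact_mod_cast this
  have h3 : (N : ℝ) ≤ 2 * (F.card : ℝ) ^ h := by exact_mod_cast h2
  have h4 := Real.log_le_log hN0 h3
  have hF0 : (0 : ℝ) < F.card := by exact_mod_cast hFc
  rw [Real.log_mul (by norm_num) (by positivity), Real.log_pow] at h4
  rw [div_le_iff₀ (by positivity)]
  linarith

/-- The number of distinct gaps of a basis. -/
theorem basis_gaps (A : Set ℕ) (h k K : ℕ) (hh : 2 ≤ h) (hk : 3 ≤ k)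
    (hK : h.factorial * K < (h.choose (h / 2)) ^ k) (hA : IsBasis A h) (hr : ∀ n, rep A h n ≤ K) :
    ∃ c : ℝ, 0 < c ∧ ∀ᶠ N : ℕ in atTop,
      c * (Real.log N) ^ (1 / ((k : ℝ) - 2)) ≤ ((gaps (A ∩ Set.Iic N)).ncard : ℝ) := by
  classical
  obtain ⟨C, hC1, hC⟩ := bounded k hk
  have hC0 : (0 : ℝ) < C := by exact_mod_cast hC1
  have hh0 : (0 : ℝ) < h := by
    have : 0 < h := by omega
    exact_mod_cast this
  have hk2 : (0 : ℝ) < (k : ℝ) - 2 := by
    have : (3 : ℝ) ≤ k := by exact_mod_cast hk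
    linarith
  set c : ℝ := (1 / (2 * h * C)) ^ (1 / ((k : ℝ) - 2)) with hc
  have hc0 : 0 < c := Real.rpow_pos_of_pos (by positivity) _
  have hlog : Tendsto (fun N : ℕ => Real.log (N : ℝ)) atTop atTop :=
    Real.tendsto_log_atTop.comp tendsto_natCast_atTop_atTop
  refine ⟨c, hc0, ?_⟩
  filter_upwards [log_growth (by omega) hA, hlog.eventually_gt_atTop (2 * h * C)] with N h1 h2
  have hfin : (A ∩ Set.Iic N).Finite := (Set.finite_Iic N).subset Set.inter_subset_right
  set F : Finset ℕ := hfin.toFinset with hF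
  have hFA : (F : Set ℕ) = A ∩ Set.Iic N := hfin.coe_toFinset
  have h3 := h1 F (fun a ha haN => by
    rw [hF, Set.Finite.mem_toFinset]
    exact ⟨ha, haN⟩)
  set g := (gaps (A ∩ Set.Iic N)).ncard with hg
  have h4 := hC A h K hK hr (max 1 g) F (by rw [hFA]; exact Set.inter_subset_left) (le_max_left _ _)
    (by rw [hFA]; exact le_max_right _ _)
  have hlogN : 0 < Real.log N := lt_trans (by positivity) h2
  have hF0 : (0 : ℝ) < F.card := by
    have : 0 < Real.log F.card := lt_of_lt_of_le (by positivity) h3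
    by_contra hcon
    push Not at hcon
    have h5 : (F.card : ℝ) = 0 := le_antisymm hcon (Nat.cast_nonneg _)
    rw [h5, Real.log_zero] at this
    exact lt_irrefl _ this
  have h5 : Real.log F.card ≤ C * (max 1 g : ℕ) ^ (k - 2) := by
    have h6 : (F.card : ℝ) ≤ 2 ^ (C * (max 1 g) ^ (k - 2)) := by exact_mod_cast h4.le
    have h7 := Real.log_le_log hF0 h6
    rw [Real.log_pow] at h7
    have h8 : Real.log 2 ≤ 1 := by have := Real.log_two_lt_d9; linarith
    have h9 : (0 : ℝ) ≤ ((C * (max 1 g) ^ (k - 2) : ℕ) : ℝ) := Nat.cast_nonneg _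
    calc Real.log F.card ≤ ((C * (max 1 g) ^ (k - 2) : ℕ) : ℝ) * Real.log 2 := h7
      _ ≤ ((C * (max 1 g) ^ (k - 2) : ℕ) : ℝ) * 1 := mul_le_mul_of_nonneg_left h8 h9
      _ = C * (max 1 g : ℕ) ^ (k - 2) := by push_cast; ring
  have h6 : Real.log N / (2 * h * C) ≤ ((max 1 g : ℕ) : ℝ) ^ (k - 2) := by
    rw [div_le_iff₀ (by positivity)]
    have h7 : Real.log N / (2 * h) ≤ C * (max 1 g : ℕ) ^ (k - 2) := h3.trans h5
    rw [div_le_iff₀ (by positivity)] at h7
    linarith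
  have hg1 : max 1 g = g := by
    rcases Nat.lt_or_ge g 1 with h7 | h7
    · exfalso
      have h8 : max 1 g = 1 := by omega
      rw [h8, Nat.cast_one, one_pow, div_le_one (by positivity)] at h6
      linarith
    · exact max_eq_right h7
  rw [hg1] at h6
  have hcast : ((k - 2 : ℕ) : ℝ) = (k : ℝ) - 2 := by
    rw [Nat.cast_sub (by omega)]; norm_num
  calc c * (Real.log N) ^ (1 / ((k : ℝ) - 2)) = (Real.log N / (2 * h * C)) ^ (1 / ((k : ℝ) - 2)) := by
        rw [hc, ← Real.mul_rpow (by positivity) hlogN.le]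
        congr 1
        ring
    _ ≤ ((g : ℝ) ^ (k - 2)) ^ (1 / ((k : ℝ) - 2)) :=
        Real.rpow_le_rpow (by positivity) h6 (by positivity)
    _ = g := by
        rw [← Real.rpow_natCast, ← Real.rpow_mul (Nat.cast_nonneg _), hcast, mul_one_div,
          div_self hk2.ne', Real.rpow_one]

/-- Sets which contain large finite sets with few distinct gaps. -/
theorem general (A : Set ℕ) (h : ℕ) (hh : 2 ≤ h)
    (hB : ∀ (ε : ℝ) (m : ℕ), 0 < ε → ∃ B : Finset ℕ, (B : Set ℕ) ⊆ A ∧ m ≤ B.card ∧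
      ((gaps (B : Set ℕ)).ncard : ℝ) ≤ (Real.log B.card) ^ ε) (K : ℕ) : ∃ n : ℕ, K < rep A h n := by
  by_contra hcon
  push Not at hcon
  obtain ⟨k, hk3, hk⟩ : ∃ k, 3 ≤ k ∧ h.factorial * K < (h.choose (h / 2)) ^ k := by
    have h2 : 2 ≤ h.choose (h / 2) := by
      have h3 : h.choose 1 ≤ h.choose (h / 2) := Nat.choose_le_middle 1 h
      rw [Nat.choose_one_right] at h3
      omega
    refine ⟨h.factorial * K + 3, by omega, ?_⟩
    calc h.factorial * K < 2 ^ (h.factorial * K) := Nat.lt_two_pow_self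
      _ ≤ (h.choose (h / 2)) ^ (h.factorial * K) := Nat.pow_le_pow_left h2 _
      _ ≤ _ := Nat.pow_le_pow_right (by omega) (by omega)
  obtain ⟨C, hC1, hC⟩ := bounded k hk3
  have hk2 : (0 : ℝ) < (k : ℝ) - 2 := by
    have : (3 : ℝ) ≤ k := by exact_mod_cast hk3
    linarith
  obtain ⟨m, hm⟩ := exists_nat_ge (Real.exp ((C : ℝ) ^ 2 + 1))
  obtain ⟨B, hBA, hBm, hBg⟩ := hB (1 / (2 * ((k : ℝ) - 2))) m (by positivity)
  have hBc : Real.exp ((C : ℝ) ^ 2 + 1) ≤ B.card := hm.trans (by exact_mod_cast hBm)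
  have hB0 : (0 : ℝ) < B.card := lt_of_lt_of_le (Real.exp_pos _) hBc
  have hl : (C : ℝ) ^ 2 + 1 ≤ Real.log B.card := by
    rw [Real.le_log_iff_exp_le hB0]
    exact hBc
  set l := Real.log B.card with hldef
  have hl1 : 1 ≤ l := by nlinarith [sq_nonneg (C : ℝ)]
  set g := (gaps (B : Set ℕ)).ncard with hg
  have h1 := hC A h K hk hcon (max 1 g) B hBA (le_max_left _ _) (le_max_right _ _)
  have hg2 : ((max 1 g : ℕ) : ℝ) ≤ l ^ (1 / (2 * ((k : ℝ) - 2))) := by
    rw [Nat.cast_max, Nat.cast_one]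
    exact max_le (Real.one_le_rpow hl1 (by positivity)) hBg
  have hcast : ((k - 2 : ℕ) : ℝ) = (k : ℝ) - 2 := by
    rw [Nat.cast_sub (by omega)]; norm_num
  have hg3 : ((max 1 g : ℕ) : ℝ) ^ (k - 2) ≤ l ^ (1 / 2 : ℝ) := by
    calc ((max 1 g : ℕ) : ℝ) ^ (k - 2) ≤ (l ^ (1 / (2 * ((k : ℝ) - 2)))) ^ (k - 2) :=
          pow_le_pow_left₀ (Nat.cast_nonneg _) hg2 _
      _ = l ^ (1 / 2 : ℝ) := by
          rw [← Real.rpow_natCast, ← Real.rpow_mul (by linarith), hcast]
          congr 1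
          field_simp
  have hsq : l ^ (1 / 2 : ℝ) = Real.sqrt l := (Real.sqrt_eq_rpow l).symm
  have hC2 : (C : ℝ) ≤ Real.sqrt l := by
    refine Real.le_sqrt_of_sq_le ?_
    linarith
  have h2 : (C : ℝ) * ((max 1 g : ℕ) : ℝ) ^ (k - 2) ≤ l := by
    rw [hsq] at hg3
    calc (C : ℝ) * ((max 1 g : ℕ) : ℝ) ^ (k - 2) ≤ Real.sqrt l * Real.sqrt l :=
          mul_le_mul hC2 hg3 (by positivity) (Real.sqrt_nonneg _)
      _ = l := Real.mul_self_sqrt (by linarith)
  have h3 : ((2 ^ (C * (max 1 g) ^ (k - 2)) : ℕ) : ℝ) ≤ B.card := by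
    push_cast
    rw [← Real.rpow_natCast, Real.rpow_def_of_pos (by norm_num)]
    calc Real.exp (Real.log 2 * ((C * (max 1 g) ^ (k - 2) : ℕ) : ℝ)) ≤ Real.exp l := by
          rw [Real.exp_le_exp]
          have h8 : Real.log 2 ≤ 1 := by have := Real.log_two_lt_d9; linarith
          have h9 : (0 : ℝ) ≤ ((C * (max 1 g) ^ (k - 2) : ℕ) : ℝ) := Nat.cast_nonneg _
          calc Real.log 2 * ((C * (max 1 g) ^ (k - 2) : ℕ) : ℝ)
              ≤ 1 * ((C * (max 1 g) ^ (k - 2) : ℕ) : ℝ) := mul_le_mul_of_nonneg_right h8 h9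
            _ = (C : ℝ) * ((max 1 g : ℕ) : ℝ) ^ (k - 2) := by push_cast; ring
            _ ≤ l := h2
      _ = B.card := Real.exp_log hB0
  have h4 : (B.card : ℝ) < ((2 ^ (C * (max 1 g) ^ (k - 2)) : ℕ) : ℝ) := by exact_mod_cast h1
  linarith

/-- Finite unions of sets with few distinct gaps. -/
theorem unions (A : Set ℕ) (h J : ℕ) (B : Fin J → Set ℕ) (hh : 2 ≤ h) (hA : IsBasis A h)
    (hAB : A = ⋃ j, B j) (hB : ∀ ε : ℝ, 0 < ε → ∃ᶠ N : ℕ in atTop,
      ∀ j, ((gaps (B j ∩ Set.Iic N)).ncard : ℝ) ≤ (Real.log N) ^ ε) (K : ℕ) : ∃ n : ℕ, K < rep A h n := by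
  classical
  refine general A h hh (fun ε m hε => ?_) K
  have hlog : Tendsto (fun N : ℕ => Real.log (N : ℝ)) atTop atTop :=
    Real.tendsto_log_atTop.comp tendsto_natCast_atTop_atTop
  have hh0 : (0 : ℝ) < h := by
    have : 0 < h := by omega
    exact_mod_cast this
  -- the size of the largest of the sets
  have hev : ∀ᶠ N : ℕ in atTop, ∃ j, ∃ F : Finset ℕ, (F : Set ℕ) = B j ∩ Set.Iic N ∧
      Real.log N / (2 * h) ≤ Real.log (J * F.card) := by
    filter_upwards [log_growth (by omega) hA, hlog.eventually_gt_atTop 0] with N h1 h2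
    have hfin : ∀ j, (B j ∩ Set.Iic N).Finite := fun j => (Set.finite_Iic N).subset Set.inter_subset_right
    have h3 := h1 (univ.biUnion (fun j => (hfin j).toFinset)) (fun a ha haN => by
      rw [hAB, Set.mem_iUnion] at ha
      obtain ⟨j, hj⟩ := ha
      rw [mem_biUnion]
      exact ⟨j, mem_univ _, by rw [Set.Finite.mem_toFinset]; exact ⟨hj, haN⟩⟩)
    have h4 : 0 < Real.log ((univ.biUnion (fun j => (hfin j).toFinset)).card : ℝ) :=
      lt_of_lt_of_le (by positivity) h3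
    have hne : (univ.biUnion (fun j => (hfin j).toFinset)).Nonempty := by
      rw [Finset.nonempty_iff_ne_empty]
      intro h5
      rw [h5] at h4
      simp at h4
    obtain ⟨j₀⟩ : Nonempty (Fin J) := by
      obtain ⟨a, ha⟩ := hne
      rw [mem_biUnion] at ha
      obtain ⟨j₀, -, -⟩ := ha
      exact ⟨j₀⟩
    obtain ⟨j, -, hj⟩ := Finset.exists_max_image (univ : Finset (Fin J)) (fun j => (hfin j).toFinset.card)
      ⟨j₀, mem_univ _⟩
    refine ⟨j, (hfin j).toFinset, (hfin j).coe_toFinset, h3.trans ?_⟩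
    refine Real.log_le_log ?_ ?_
    · exact_mod_cast hne.card_pos
    · have h5 : (univ.biUnion (fun j => (hfin j).toFinset)).card ≤ J * (hfin j).toFinset.card := by
        refine Finset.card_biUnion_le.trans ?_
        calc ∑ i : Fin J, (hfin i).toFinset.card ≤ ∑ _i : Fin J, (hfin j).toFinset.card :=
              Finset.sum_le_sum (fun i _ => hj i (mem_univ _))
          _ = J * (hfin j).toFinset.card := by simp
      exact_mod_cast h5
  obtain ⟨N, hN1, ⟨j, F, hF, hF2⟩, hN3⟩ := ((hB (ε / 2) (by positivity)).and_eventually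
    (hev.and (hlog.eventually_ge_atTop ((4 * (h : ℝ)) ^ 2 + 1 +
      4 * h * (|Real.log J| + Real.log (m + 1)))))).exists
  have hm0 : 0 ≤ Real.log ((m : ℝ) + 1) := Real.log_nonneg (by
    have : (0 : ℝ) ≤ m := Nat.cast_nonneg _
    linarith)
  set l := Real.log N with hl
  have habs : 0 ≤ |Real.log J| := abs_nonneg _
  have hprod : 0 ≤ 4 * (h : ℝ) * (|Real.log J| + Real.log (m + 1)) := by positivity
  have hl1 : 1 ≤ l := by nlinarith [sq_nonneg (4 * (h : ℝ))]
  have hl2 : (4 * (h : ℝ)) ^ 2 ≤ l := by linarith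
  have hl3 : 4 * (h : ℝ) * (|Real.log J| + Real.log (m + 1)) ≤ l := by
    nlinarith [sq_nonneg (4 * (h : ℝ))]
  have hs : 4 * (h : ℝ) ≤ Real.sqrt l := Real.le_sqrt_of_sq_le hl2
  have hs2 : Real.sqrt l * Real.sqrt l = l := Real.mul_self_sqrt (by linarith)
  have hs3 : 4 * h * Real.sqrt l ≤ l := by
    calc 4 * h * Real.sqrt l ≤ Real.sqrt l * Real.sqrt l :=
          mul_le_mul_of_nonneg_right hs (Real.sqrt_nonneg _)
      _ = l := hs2
  have hkey : Real.sqrt l + |Real.log J| + Real.log (m + 1) ≤ l / (2 * h) := by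
    rw [le_div_iff₀ (by positivity)]
    linarith
  have hpos : 0 < Real.log (J * F.card) := lt_of_lt_of_le (by positivity) hF2
  have hJF : (J : ℝ) ≠ 0 ∧ (F.card : ℝ) ≠ 0 := by
    constructor
    · intro h0; rw [h0, zero_mul, Real.log_zero] at hpos; exact lt_irrefl _ hpos
    · intro h0; rw [h0, mul_zero, Real.log_zero] at hpos; exact lt_irrefl _ hpos
  rw [Real.log_mul hJF.1 hJF.2] at hF2
  have hlogF : Real.sqrt l + Real.log (m + 1) ≤ Real.log F.card := by
    have := le_abs_self (Real.log J)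
    linarith
  have hF0 : (0 : ℝ) < F.card := lt_of_le_of_ne (Nat.cast_nonneg _) (Ne.symm hJF.2)
  refine ⟨F, ?_, ?_, ?_⟩
  · rw [hF, hAB]
    exact Set.inter_subset_left.trans (Set.subset_iUnion B j)
  · have h1 : Real.log ((m : ℝ) + 1) ≤ Real.log F.card := by
      have := Real.sqrt_nonneg l
      linarith
    have h2 : (m : ℝ) + 1 ≤ F.card := (Real.log_le_log_iff (by positivity) hF0).1 h1
    have h3 : m + 1 ≤ F.card := by exact_mod_cast h2
    omega
  · rw [hF]
    refine (hN1 j).trans ?_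
    calc l ^ (ε / 2) = (Real.sqrt l) ^ ε := by
          rw [Real.sqrt_eq_rpow, ← Real.rpow_mul (by linarith)]
          congr 1
          ring
      _ ≤ (Real.log F.card) ^ ε :=
          Real.rpow_le_rpow (Real.sqrt_nonneg _) (by linarith) hε.le

end Pool.Agent.h232gaps
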