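import Pool.Agent.h232_gaps.Core

/-!
# Cubes in sets of integers with few distinct gaps: the induction
-/

set_option autoImplicit false

open Finset

namespace Pool.Agent.h232gaps

/-- the first `M` gaps of the sequence `a` lie in `G` -/
def GapsIn (a : ℕ → ℤ) (M : ℕ) (G : Finset ℤ) : Prop := ∀ i < M, a (i + 1) - a i ∈ G

theorem exists_sym {a : ℕ → ℤ} {M : ℕ} {G : Finset ℤ} (hG : GapsIn a M G) :
    ∀ (L i j : ℕ), i ≤ j → j ≤ M → j ≤ i + L →
      ∃ s : Sym ↥(insert 0 G) L, (Multiset.map Subtype.val s.1).sum = a j - a i := by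
  intro L
  induction L with
  | zero =>
    intro i j h1 h2 h3
    have : j = i := by omega
    subst this
    exact ⟨Sym.nil, by simp⟩
  | succ L ih =>
    intro i j h1 h2 h3
    rcases Nat.lt_or_ge (i + L) j with h | h
    · obtain ⟨s, hs⟩ := ih i (j - 1) (by omega) (by omega) (by omega)
      have h4 : a j - a (j - 1) ∈ G := by
        have := hG (j - 1) (by omega)
        rwa [show j - 1 + 1 = j by omega] at this
      refine ⟨Sym.cons ⟨a j - a (j - 1), Finset.mem_insert_of_mem h4⟩ s, ?_⟩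
      show (Multiset.map Subtype.val (_ ::ₘ s.1)).sum = _
      rw [Multiset.map_cons, Multiset.sum_cons, hs]
      ring
    · obtain ⟨s, hs⟩ := ih i j h1 h2 h
      refine ⟨Sym.cons ⟨0, Finset.mem_insert_self _ _⟩ s, ?_⟩
      show (Multiset.map Subtype.val (_ ::ₘ s.1)).sum = _
      rw [Multiset.map_cons, Multiset.sum_cons, hs]
      ring

theorem diffs {a : ℕ → ℤ} {M g : ℕ} {G : Finset ℤ} (hG : GapsIn a M G) (hg : G.card ≤ g) (L : ℕ) :
    ∃ D : Finset ℤ, D.card ≤ (g + L).choose L ∧ ∀ i j, i ≤ j → j ≤ M → j ≤ i + L → a j - a i ∈ D := by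
  classical
  refine ⟨(univ : Finset (Sym ↥(insert 0 G) L)).image
    (fun s : Sym ↥(insert 0 G) L => (Multiset.map Subtype.val s.1).sum), ?_, ?_⟩
  · refine Finset.card_image_le.trans ?_
    rw [Finset.card_univ, Sym.card_sym_eq_multichoose, Fintype.card_coe, Nat.multichoose_eq]
    refine Nat.choose_le_choose _ ?_
    have := Finset.card_insert_le (0 : ℤ) G
    omega
  · intro i j h1 h2 h3
    obtain ⟨s, hs⟩ := exists_sym hG L i j h1 h2 h3
    rw [mem_image]
    exact ⟨s, mem_univ _, hs⟩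

theorem choose_le (g L : ℕ) : (g + L).choose L ≤ (L + 1) ^ g := by
  induction g with
  | zero => simp
  | succ g ih =>
    have h1 : (g + 1 + L).choose L * (g + 1) = (g + L).choose L * (g + 1 + L) := by
      have h2 := Nat.add_one_mul_choose_eq (g + L) g
      rw [show g + 1 + L = g + L + 1 by ring]
      have h3 : (g + L + 1).choose L = (g + L + 1).choose (g + 1) := by
        rw [show g + L + 1 = (g + 1) + L by ring]
        exact Nat.choose_symm_add.symm
      have h4 : (g + L).choose L = (g + L).choose g := Nat.choose_symm_add.symm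
      rw [h3, h4]
      linarith
    have h5 : g + 1 + L ≤ (L + 1) * (g + 1) := by nlinarith
    have h6 : (g + 1 + L).choose L * (g + 1) ≤ (L + 1) ^ (g + 1) * (g + 1) := by
      rw [h1]
      calc (g + L).choose L * (g + 1 + L) ≤ (L + 1) ^ g * ((L + 1) * (g + 1)) := Nat.mul_le_mul ih h5
        _ = (L + 1) ^ (g + 1) * (g + 1) := by ring
    exact Nat.le_of_mul_le_mul_right h6 (by omega)

theorem step {a : ℕ → ℤ} (ha : StrictMono a) {M g t L Q : ℕ} {G : Finset ℤ} (hG : GapsIn a M G)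
    (hg : G.card ≤ g) {e : ℕ → ℤ} {S : Finset ℕ} (h : St a M t e L S) (hQ : M + 1 ≤ S.card * Q)
    (hBM : 4 * (L + 1) * Q ≤ M + 1) :
    ∃ (e' : ℕ → ℤ) (S' : Finset ℕ), St a M (t + 1) e' (L + 4 * (L + 1) * Q) S' ∧
      M + 1 ≤ S'.card * (2 * (4 * (L + 1) * Q) * (g + 4 * (L + 1) * Q).choose (4 * (L + 1) * Q) * Q) := by
  obtain ⟨D, hDc, hD⟩ := diffs hG hg (4 * (L + 1) * Q)
  obtain ⟨v, S', hS', hc, hv⟩ := pigeon S (fun s hs => (h.2 s hs).1) hQ rfl hBM a D hD
  have hS0 : 0 < S.card := by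
    rcases Nat.eq_zero_or_pos S.card with h1 | h1
    · rw [h1] at hQ; omega
    · exact h1
  have hne : S'.Nonempty := by
    rw [← Finset.card_pos]
    rcases Nat.eq_zero_or_pos S'.card with h1 | h1
    · rw [h1] at hc; omega
    · exact h1
  refine ⟨_, S', h.extend ha v hne hS' hv, ?_⟩
  calc M + 1 ≤ S.card * Q := hQ
    _ ≤ (S'.card * (2 * (4 * (L + 1) * Q) * D.card)) * Q := Nat.mul_le_mul_right _ hc
    _ = S'.card * (2 * (4 * (L + 1) * Q) * D.card * Q) := by ring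
    _ ≤ _ := by
      refine Nat.mul_le_mul_left _ (Nat.mul_le_mul_right _ (Nat.mul_le_mul_left _ hDc))

theorem base {a : ℕ → ℤ} (ha : StrictMono a) {M g : ℕ} {G : Finset ℤ} (hG : GapsIn a M G)
    (hg : G.card ≤ g) (hM : 1 ≤ M) :
    ∃ (e : ℕ → ℤ) (S : Finset ℕ), St a M 1 e 1 S ∧ M + 1 ≤ S.card * (2 * g) := by
  classical
  have h0 : St a M 0 (fun _ => 0) 0 (range (M + 1)) := by
    refine ⟨fun i hi => by omega, fun s hs => ⟨?_, ?_, ?_⟩⟩
    · rw [mem_range] at hs; omega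
    · intro I hI
      have : I = ∅ := by
        rw [range_zero, Finset.subset_empty] at hI
        exact hI
      subst this
      rw [mem_range] at hs
      exact ⟨s, by omega, by simp⟩
    · simp
  have hne : G.Nonempty := ⟨_, hG 0 (by omega)⟩
  obtain ⟨v, hvG, hvmax⟩ := Finset.exists_max_image G
    (fun v => ((range M).filter (fun i => a (i + 1) - a i = v)).card) hne
  set F := (range M).filter (fun i => a (i + 1) - a i = v) with hF
  have hfib : M ≤ g * F.card := by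
    have h1 : (range M).card = ∑ w ∈ G, ((range M).filter (fun i => a (i + 1) - a i = w)).card :=
      Finset.card_eq_sum_card_fiberwise (fun i hi => hG i (mem_range.1 hi))
    rw [card_range] at h1
    calc M = ∑ w ∈ G, ((range M).filter (fun i => a (i + 1) - a i = w)).card := h1
      _ ≤ ∑ _w ∈ G, F.card := Finset.sum_le_sum (fun w hw => hvmax w hw)
      _ = G.card * F.card := by rw [Finset.sum_const, smul_eq_mul]
      _ ≤ g * F.card := Nat.mul_le_mul_right _ hg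
  have hFne : F.Nonempty := by
    rw [← Finset.card_pos]
    rcases Nat.eq_zero_or_pos F.card with h1 | h1
    · rw [h1] at hfib; omega
    · exact h1
  have h1 := h0.extend ha (B := 1) v hFne (fun i hi => by
      have := mem_range.1 (mem_filter.1 hi).1
      rw [mem_range]; omega) (fun i hi => by
      obtain ⟨h1, h2⟩ := mem_filter.1 hi
      rw [mem_range] at h1
      exact ⟨i + 1, by rw [mem_range]; omega, by omega, by omega, by linarith⟩)
  refine ⟨_, F, h1, ?_⟩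
  nlinarith

/-- The induction. -/
theorem many (t : ℕ) : ∀ (g : ℕ) (a : ℕ → ℤ) (M : ℕ) (G : Finset ℤ), 1 ≤ g → StrictMono a →
    GapsIn a M G → G.card ≤ g → 2 ^ (25 * 6 ^ t * g ^ (t + 1)) ≤ M + 1 →
    ∃ (e : ℕ → ℤ) (L : ℕ) (S : Finset ℕ), St a M (t + 2) e L S ∧ L + 1 ≤ 2 ^ (25 * 6 ^ t * g ^ (t + 1)) ∧
      M + 1 ≤ S.card * 2 ^ (25 * 6 ^ t * g ^ (t + 1)) := by
  induction t with
  | zero =>
    intro g a M G hg ha hG hGg hM
    rw [zero_add, pow_one, pow_zero, mul_one] at hM ⊢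
    have hg2 : g ≤ 2 ^ g := Nat.lt_two_pow_self.le
    have hM1 : 1 ≤ M := by
      have h1 : 2 ^ 1 ≤ 2 ^ (25 * g) := Nat.pow_le_pow_right (by norm_num) (by omega)
      omega
    obtain ⟨e, S, hSt, hS⟩ := base ha hG hGg hM1
    have hpow : ∀ c : ℕ, c ≤ 25 → (2 ^ g) ^ c ≤ 2 ^ (25 * g) := by
      intro c hc
      rw [← pow_mul]
      exact Nat.pow_le_pow_right (by norm_num) (by nlinarith)
    have hx2 : 2 ≤ 2 ^ g := by
      calc 2 = 2 ^ 1 := by norm_num
        _ ≤ 2 ^ g := Nat.pow_le_pow_right (by norm_num) hg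
    set x := 2 ^ g with hx
    have h16 : 16 * g + 2 ≤ x ^ 6 := by
      have h1 : 2 ^ 5 ≤ x ^ 5 := Nat.pow_le_pow_left hx2 5
      calc 16 * g + 2 ≤ 32 * x := by omega
        _ ≤ x ^ 5 * x := Nat.mul_le_mul_right _ h1
        _ = x ^ 6 := by ring
    have hB : 4 * (1 + 1) * (2 * g) ≤ M + 1 := by
      calc 4 * (1 + 1) * (2 * g) ≤ 16 * g + 2 := by omega
        _ ≤ x ^ 6 := h16
        _ ≤ 2 ^ (25 * g) := hpow 6 (by norm_num)
        _ ≤ M + 1 := hM
    obtain ⟨e', S', hSt', hS'⟩ := step ha hG hGg hSt hS hB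
    refine ⟨e', _, S', hSt', ?_, ?_⟩
    · calc 1 + 4 * (1 + 1) * (2 * g) + 1 ≤ 16 * g + 2 := by omega
        _ ≤ x ^ 6 := h16
        _ ≤ 2 ^ (25 * g) := hpow 6 (by norm_num)
    · refine hS'.trans (Nat.mul_le_mul_left _ ?_)
      have h1 : (g + 4 * (1 + 1) * (2 * g)).choose (4 * (1 + 1) * (2 * g)) ≤ x ^ 17 := by
        calc (g + 4 * (1 + 1) * (2 * g)).choose (4 * (1 + 1) * (2 * g))
            ≤ 2 ^ (g + 4 * (1 + 1) * (2 * g)) := Nat.choose_le_two_pow _ _
          _ = x ^ 17 := by rw [hx, ← pow_mul]; congr 1; ring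
      calc 2 * (4 * (1 + 1) * (2 * g)) * (g + 4 * (1 + 1) * (2 * g)).choose (4 * (1 + 1) * (2 * g)) *
            (2 * g) ≤ 2 * (4 * (1 + 1) * (2 * x)) * x ^ 17 * (2 * x) := by gcongr
        _ = 2 ^ 6 * x ^ 19 := by ring
        _ ≤ x ^ 6 * x ^ 19 := Nat.mul_le_mul_right _ (Nat.pow_le_pow_left hx2 6)
        _ = x ^ 25 := by ring
        _ ≤ 2 ^ (25 * g) := hpow 25 le_rfl
  | succ t ih =>
    intro g a M G hg ha hG hGg hM
    set c := 25 * 6 ^ t * g ^ (t + 1) with hc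
    have hc' : 25 * 6 ^ (t + 1) * g ^ (t + 1 + 1) = (6 * c) * g := by
      rw [hc]; ring
    have hgp : 1 ≤ g ^ (t + 1) := Nat.one_le_pow _ _ hg
    have h6p : 1 ≤ 6 ^ t := Nat.one_le_pow _ _ (by norm_num)
    have hc6 : 6 ≤ c := by
      have h1 : 1 ≤ 6 ^ t * g ^ (t + 1) := Nat.mul_le_mul h6p hgp
      have h2 : c = 25 * (6 ^ t * g ^ (t + 1)) := by rw [hc]; ring
      omega
    have hexp : (6 + 5 * c) * g ≤ 25 * 6 ^ (t + 1) * g ^ (t + 1 + 1) := by
      rw [hc']
      refine Nat.mul_le_mul_right _ ?_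
      omega
    have hle : ∀ d : ℕ, d ≤ (6 + 5 * c) * g → 2 ^ d ≤ 2 ^ (25 * 6 ^ (t + 1) * g ^ (t + 1 + 1)) :=
      fun d hd => Nat.pow_le_pow_right (by norm_num) (hd.trans hexp)
    have hcg : 6 + 5 * c ≤ (6 + 5 * c) * g := Nat.le_mul_of_pos_right _ hg
    obtain ⟨e, L, S, hSt, hL, hS⟩ := ih g a M G hg ha hG hGg
      ((hle c (by omega)).trans hM)
    rw [← hc] at hL hS
    set W := 2 ^ c with hW
    have hW1 : 1 ≤ W := Nat.one_le_two_pow
    have hW2 : W ^ 2 = 2 ^ (2 * c) := by rw [hW, ← pow_mul, mul_comm]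
    have hW3 : W ^ 3 = 2 ^ (3 * c) := by rw [hW, ← pow_mul, mul_comm]
    have h42 : 4 * W ^ 2 = 2 ^ (2 + 2 * c) := by rw [pow_add, ← hW2]; rfl
    have h83 : 8 * W ^ 3 = 2 ^ (3 + 3 * c) := by rw [pow_add, ← hW3]; rfl
    have h82 : 8 * W ^ 2 = 2 ^ (3 + 2 * c) := by rw [pow_add, ← hW2]; rfl
    clear_value W
    have hBle : 4 * (L + 1) * W ≤ 4 * W ^ 2 := by nlinarith
    have hBM : 4 * (L + 1) * W ≤ M + 1 := by
      refine hBle.trans (le_trans ?_ hM)
      calc 4 * W ^ 2 = 2 ^ (2 + 2 * c) := h42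
        _ ≤ _ := hle _ (by omega)
    obtain ⟨e', S', hSt', hS'⟩ := step ha hG hGg hSt hS hBM
    refine ⟨e', _, S', hSt', ?_, ?_⟩
    · calc L + 4 * (L + 1) * W + 1 ≤ W + 4 * W ^ 2 := by omega
        _ ≤ 8 * W ^ 2 := by nlinarith
        _ = 2 ^ (3 + 2 * c) := h82
        _ ≤ _ := hle _ (by omega)
    · refine hS'.trans (Nat.mul_le_mul_left _ ?_)
      have h1 : (g + 4 * (L + 1) * W).choose (4 * (L + 1) * W) ≤ (8 * W ^ 2) ^ g := by
        refine (choose_le _ _).trans (Nat.pow_le_pow_left ?_ _)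
        nlinarith
      calc 2 * (4 * (L + 1) * W) * (g + 4 * (L + 1) * W).choose (4 * (L + 1) * W) * W
          ≤ 2 * (4 * W ^ 2) * (8 * W ^ 2) ^ g * W := by gcongr
        _ = 8 * W ^ 3 * (8 * W ^ 2) ^ g := by ring
        _ = 2 ^ (3 + 3 * c + (3 + 2 * c) * g) := by
            rw [h83, h82, ← pow_mul, ← pow_add]
        _ ≤ _ := hle _ (by nlinarith)

end Pool.Agent.h232gaps
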